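import Pool.Agent.H44.DU.Targets

/-!
# The developed heights grow
-/

set_option autoImplicit false

namespace Pool.Agent.H66.DU

open Pool.Agent.H44.DU

variable {n : ℕ} {S : Surf n}

/-- The developed heights increase. -/
theorem hmono (hHT : T_HT) (t x : ℝ) (v' : List (Side n)) : ∀ (v : List (Side n)) (l : Side n)
    (w : List (Side n)) (l' : Side n), v ++ l :: v' = w ++ [l'] → S.Run t (w ++ [l']) x →
    S.ht t v l x ≤ S.ht t w l' x := by
  induction v' with
  | nil =>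
    intro v l w l' h _
    obtain ⟨h1, h2⟩ := List.append_inj' h rfl
    rw [h1, (List.cons.inj h2).1]
  | cons l1 v'' ih =>
    intro v l w l' h hr
    have h1 : (v ++ [l]) ++ l1 :: v'' = w ++ [l'] := by rw [← h]; simp
    have h2 := ih (v ++ [l]) l1 w l' h1 hr
    have h3 : S.Run t (v ++ [l] ++ [l1]) x := by
      rw [← h1, show (v ++ [l]) ++ l1 :: v'' = (v ++ [l] ++ [l1]) ++ v'' by simp,
        S.run_append] at hr
      exact hr.1
    obtain ⟨h4, h5, -⟩ := hHT n S t x v l l1 h3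
    have h6 : 0 < S.sg t l l1 (S.g t (v ++ [l]) x) / S.A (v ++ [l]) :=
      div_pos h5 (S.A_pos _)
    linarith

/-- The scale of a word is bounded below. -/
theorem A_ge (α : ℝ) (h0 : 0 < α) (h1 : α ≤ 1) (ha : ∀ s, α ≤ S.a s) (w : List (Side n)) (N : ℕ)
    (hN : w.length ≤ N) : α ^ N ≤ S.A w := by
  have h2 : α ^ w.length ≤ S.A w := by
    clear hN
    induction w with
    | nil => simp [Surf.A]
    | cons r w ih =>
      simp only [List.length_cons, Surf.A, pow_succ']
      exact mul_le_mul (ha r) ih (by positivity) (S.a_pos r).le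
  exact (pow_le_pow_of_le_one h0.le h1 hN).trans h2

theorem exists_alpha (S : Surf n) : ∃ α : ℝ, 0 < α ∧ α ≤ 1 ∧ ∀ s, α ≤ S.a s := by
  have h : ∀ T : Finset (Side n), ∃ α : ℝ, 0 < α ∧ α ≤ 1 ∧ ∀ s ∈ T, α ≤ S.a s := by
    intro T
    induction T using Finset.induction_on with
    | empty => exact ⟨1, one_pos, le_refl _, by simp⟩
    | insert a T _ ih =>
      obtain ⟨α, h1, h2, h3⟩ := ih
      refine ⟨min α (S.a a), lt_min h1 (S.a_pos a), (min_le_left _ _).trans h2, ?_⟩
      intro s hs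
      rcases Finset.mem_insert.1 hs with rfl | hs
      · exact min_le_right _ _
      · exact (min_le_left _ _).trans (h3 s hs)
  obtain ⟨α, h1, h2, h3⟩ := h Finset.univ
  exact ⟨α, h1, h2, fun s => h3 s (Finset.mem_univ s)⟩

/-- The height of a point on a side. -/
theorem pt_im_ge (hPT : T_PT) (t x : ℝ) (r : Side n) (h : S.InJ t r x) :
    -(∑ s : Side n, (‖S.P s‖ + ‖S.Q s‖)) ≤ (S.pt t r x).im := by
  have hne : xi t (S.P r) ≠ xi t (S.Q r) := by
    have := h.1.trans h.2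
    exact this.ne'
  obtain ⟨-, -, -, -, h5, -⟩ := hPT n S t r hne
  obtain ⟨a, b, ha, hb, hab, he⟩ := h5 x (Or.inl h)
  have h6 : (S.pt t r x).im = a * (S.P r).im + b * (S.Q r).im := by
    rw [← he]; simp
  have h7 : ‖S.P r‖ + ‖S.Q r‖ ≤ ∑ s : Side n, (‖S.P s‖ + ‖S.Q s‖) :=
    Finset.single_le_sum (f := fun s => ‖S.P s‖ + ‖S.Q s‖)
      (fun s _ => add_nonneg (norm_nonneg _) (norm_nonneg _)) (Finset.mem_univ r)
  have h8 : -‖S.P r‖ ≤ (S.P r).im := (abs_le.1 (Complex.abs_im_le_norm _)).1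
  have h9 : -‖S.Q r‖ ≤ (S.Q r).im := (abs_le.1 (Complex.abs_im_le_norm _)).1
  have h10 := norm_nonneg (S.P r)
  have h11 := norm_nonneg (S.Q r)
  rw [h6]
  nlinarith

/-- The developed height at the end of a word. -/
theorem end_ht (hPT : T_PT) (t x : ℝ) (w : List (Side n)) (l : Side n)
    (h : S.Run t (w ++ [l]) x) :
    (S.pt t (S.gl l) (S.g t (w ++ [l]) x)).im - (S.B (w ++ [l])).im =
      S.A (w ++ [l]) * S.ht t w l x := by
  rw [S.run_append, S.run_single] at h
  have hne : xi t (S.P l) ≠ xi t (S.Q l) := by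
    have := h.2.2.1.trans h.2.2.2
    exact this.ne'
  obtain ⟨-, h2, -⟩ := hPT n S t l hne
  have h3 := h2 (S.g t w x)
  rw [S.g_append, S.g_single, ← h3, S.B_append, S.A_append]
  have hA := (S.A_pos w).ne'
  simp only [Surf.ht, Surf.A, Surf.B]
  simp
  field_simp

theorem pf_QB (h1 : T_HT) (h2 : T_GA) (h3 : T_PT) : T_QB := by
  intro n S U K C ρ hC hρ0 hρ1
  obtain ⟨c₁, hc₁, hGain⟩ := h2 n S K
  obtain ⟨α, hα0, hα1, hα⟩ := exists_alpha S
  set D : ℝ := ∑ s : Side n, (‖S.P s‖ + ‖S.Q s‖) with hD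
  have hD0 : 0 ≤ D := Finset.sum_nonneg fun s _ => add_nonneg (norm_nonneg _) (norm_nonneg _)
  set al : ℝ := α ^ (3 * n + 1) with hal
  have hal0 : 0 < al := by positivity
  obtain ⟨N₁, hN₁⟩ : ∃ N₁ : ℕ, ∀ k ≥ N₁, C * D * ρ ^ k ≤ c₁ * al / 2 := by
    have ht : Filter.Tendsto (fun k : ℕ => C * D * ρ ^ k) Filter.atTop (nhds (C * D * 0)) :=
      (tendsto_pow_atTop_nhds_zero_of_lt_one hρ0.le hρ1).const_mul _
    rw [mul_zero] at ht
    have h4 := ht.eventually (gt_mem_nhds (show (0 : ℝ) < c₁ * al / 2 by positivity))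
    obtain ⟨N₁, hN₁⟩ := Filter.eventually_atTop.1 h4
    exact ⟨N₁, fun k hk => (hN₁ k hk).le⟩
  refine ⟨c₁ * al / 2, by positivity, max (3 * n + 1) N₁, ?_⟩
  intro t ht hContr w l x hU hlen hrun
  have hlen1 : 3 * n + 1 ≤ (w ++ [l]).length := (le_max_left _ _).trans hlen
  have hlen2 : N₁ ≤ (w ++ [l]).length := (le_max_right _ _).trans hlen
  rw [end_ht h3 t x w l hrun]
  -- the gain
  set W := w ++ [l] with hW
  set k := W.length - (3 * n + 1) with hk
  have hdl : (W.drop k).length = 3 * n + 1 := by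
    rw [List.length_drop]; omega
  obtain ⟨u', r, r', w', he, hg⟩ := hGain t ht _ _ (S.run_drop hrun k) hdl.ge
  rw [← S.g_append, ← List.append_assoc] at hg
  set u := W.take k ++ u' with hu
  have hWu : W = u ++ r :: r' :: w' := by
    rw [hu, List.append_assoc, ← he, List.take_append_drop]
  have hrun1 : S.Run t (u ++ [r] ++ [r']) x := by
    rw [hWu, show u ++ r :: r' :: w' = (u ++ [r] ++ [r']) ++ w' by simp, S.run_append] at hrun
    exact hrun.1
  obtain ⟨i1, i2, -⟩ := h1 n S t x u r r' hrun1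
  -- the end
  have j1 : S.ht t (u ++ [r]) r' x ≤ S.ht t w l x := by
    refine hmono h1 t x w' (u ++ [r]) r' w l ?_ hrun
    rw [← hW, hWu]; simp
  -- the beginning
  obtain ⟨r0, v', hr0⟩ : ∃ r0 v', u ++ [r] = r0 :: v' := by
    cases hh : u ++ [r] with
    | nil => simp at hh
    | cons r0 v' => exact ⟨r0, v', rfl⟩
  have hrun2 : S.Run t (u ++ [r]) x := by
    rw [S.run_append] at hrun1
    exact hrun1.1
  have j2 : S.ht t [] r0 x ≤ S.ht t u r x :=
    hmono h1 t x v' [] r0 u r (by rw [List.nil_append, hr0]) hrun2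
  have j3 : S.ht t [] r0 x = (S.pt t r0 x).im := by
    simp [Surf.ht, Surf.g_nil, Surf.A, Surf.B]
  have hInJ : S.InJ t r0 x := by
    rw [hr0] at hrun2
    exact hrun2.1
  have j4 := pt_im_ge h3 t x r0 hInJ
  rw [← hD] at j4
  have hAW := S.A_pos W
  have hAu := S.A_pos (u ++ [r])
  have hWA : S.A W = S.A (u ++ [r]) * S.A (r' :: w') := by
    rw [← S.A_append, hWu]
    congr 1
    simp
  have hle : al ≤ S.A (r' :: w') := by
    apply A_ge α hα0 hα1 hα
    have h5 := congrArg List.length he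
    rw [hdl] at h5
    simp only [List.length_append, List.length_cons] at h5 ⊢
    omega
  have hAW' : S.A W ≤ C * ρ ^ W.length := hContr W x hU hrun
  have hfin := hN₁ _ hlen2
  -- assemble
  have k1 : -D + S.sg t r r' (S.g t (u ++ [r]) x) / S.A (u ++ [r]) ≤ S.ht t w l x := by
    linarith
  have k2 : S.A W * (-D + S.sg t r r' (S.g t (u ++ [r]) x) / S.A (u ++ [r])) ≤
      S.A W * S.ht t w l x := mul_le_mul_of_nonneg_left k1 hAW.le
  have k3 : S.A W * (-D + S.sg t r r' (S.g t (u ++ [r]) x) / S.A (u ++ [r])) =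
      -(S.A W * D) + S.A (r' :: w') * S.sg t r r' (S.g t (u ++ [r]) x) := by
    rw [hWA]
    field_simp
  have k4 : al * c₁ ≤ S.A (r' :: w') * S.sg t r r' (S.g t (u ++ [r]) x) :=
    mul_le_mul hle hg hc₁.le (S.A_pos _).le
  have k5 : S.A W * D ≤ C * D * ρ ^ W.length := by
    calc S.A W * D ≤ C * ρ ^ W.length * D := mul_le_mul_of_nonneg_right hAW' hD0
      _ = C * D * ρ ^ W.length := by ring
  linarith

end Pool.Agent.H66.DU
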