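import Pool.Agent.H44.DU.Basic2

/-!
# Orbits with periodic letters converge to a periodic orbit
-/

set_option autoImplicit false

namespace Pool.Agent.H66.DU

open Pool.Agent.H44.DU

/-- The words of a sequence with period `p`. -/
theorem word_eq {β : Type} (f : ℕ → β) (p : ℕ) (hp : ∀ k, f (k + p) = f k) (k m : ℕ) :
    (List.range (k * p + m)).map f =
      (List.replicate k ((List.range p).map f)).flatten ++ (List.range m).map f := by
  induction k with
  | zero => simp
  | succ k ih =>
    have h1 : (k + 1) * p + m = p + (k * p + m) := by ring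
    rw [h1, List.range_add, List.map_append, List.map_map, List.replicate_succ,
      List.flatten_cons, List.append_assoc, ← ih]
    congr 1
    apply List.map_congr_left
    intro j _
    simp only [Function.comp]
    rw [add_comm p j, hp]

theorem pf_P4 (h2 : T_P2) (h3 : T_P3) : T_P4 := by
  intro n S U t c C ρ m hAbs hGd hc hGain hC hρ0 hρ1 hContr hm hNB y p hy hU hp hper
  -- all letters are in `U`
  have hUall : ∀ k, U (y k).1.1 := by
    intro k
    induction k with
    | zero => exact hU
    | succ k ih =>
      have h4 := hAbs _ _ (hy k).1 ih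
      rw [(hy k).2.2.1] at h4
      exact h4
  set f : ℕ → Side n := fun j => (y j).1 with hf
  set u : List (Side n) := (List.range p).map f with hu
  set w : List (Side n) := (List.range m).map f with hw
  have hwm : ∀ a : ℕ, ∀ r ∈ (List.range a).map f, U r.1 := by
    intro a r hr
    obtain ⟨j, -, rfl⟩ := List.mem_map.1 hr
    exact hUall j
  -- runs of chains with the same letters
  have hrun : ∀ y' : ℕ → Side n × ℝ, (∀ k, S.Tr t (y' k) (y' (k + 1))) →
      (∀ k, (y k).1 = (y' k).1) → ∀ a : ℕ,
      S.Run t ((List.range a).map f) (y' 0).2 ∧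
      S.g t ((List.range a).map f) (y' 0).2 = (y' a).2 ∧
      S.A ((List.range a).map f) = ∏ j ∈ Finset.range a, S.a (y' j).1 := by
    intro y' hy' hl a
    have h4 := S.chain_run hy' 0 a
    simp only [zero_add] at h4
    have h5 : (List.range a).map (fun j => (y' j).1) = (List.range a).map f := by
      apply List.map_congr_left
      intro j _
      exact (hl j).symm
    rw [h5] at h4
    exact h4
  have hword := word_eq f p hper
  have hwRW : w ∈ S.RW U t m := by
    refine ⟨by simp [hw], hwm m, (y 0).2, (hrun y hy (fun _ => rfl) m).1⟩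
  have hune : u ≠ [] := by
    intro h
    have := congrArg List.length h
    simp [hu] at this
    omega
  have hwne : w ≠ [] := by
    intro h
    have := congrArg List.length h
    simp [hw] at this
    omega
  have hhead : w.head? = u.head? := by
    obtain ⟨p', rfl⟩ : ∃ p', p = p' + 1 := ⟨p - 1, by omega⟩
    obtain ⟨m', rfl⟩ : ∃ m', m = m' + 1 := ⟨m - 1, by omega⟩
    simp [hu, hw, List.range_succ_eq_map]
  have hA : ∀ k : ℕ, S.A ((List.replicate k u).flatten) ≤ C * ρ ^ k := by
    intro k
    have h4 := hword k 0
    simp only [List.range_zero, List.map_nil, List.append_nil, add_zero] at h4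
    rw [← h4]
    have h5 := hContr _ _ (hwm (k * p)) (hrun y hy (fun _ => rfl) (k * p)).1
    refine h5.trans ?_
    apply mul_le_mul_of_nonneg_left _ hC.le
    simp only [List.length_map, List.length_range]
    exact pow_le_pow_of_le_one hρ0.le hρ1.le (Nat.le_mul_of_pos_right k hp)
  have hext : ∀ k : ℕ, ∀ x, S.Run t w x → S.Run t ((List.replicate k u).flatten ++ w) x := by
    intro k x hx
    obtain ⟨y', hy', hx', -, hl⟩ := (h3 n S U t m hAbs hm hNB).1 w hwRW x hx
    have hl' : ∀ j < m, (y j).1 = (y' j).1 := by
      intro j hj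
      have h5 := congrArg (fun l => l[j]?) hl
      simp [hw, hj] at h5
      exact h5.symm
    have h6 := (h3 n S U t m hAbs hm hNB).2 y y' hy hy' hU hl'
    rw [← hword k m, ← hx']
    exact (hrun y' hy' h6 (k * p + m)).1
  obtain ⟨hAu, x, hgx, hrunx⟩ := h2 n S t c C ρ u w hGd hc hGain hC hρ0 hρ1 hune hwne hhead hA
    ⟨(y 0).2, (hrun y hy (fun _ => rfl) m).1⟩ hext
  have hwx : S.Run t w x := by simpa using hrunx 0
  obtain ⟨z, hz, hzx, -, hl⟩ := (h3 n S U t m hAbs hm hNB).1 w hwRW x hwx
  have hl' : ∀ j < m, (y j).1 = (z j).1 := by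
    intro j hj
    have h5 := congrArg (fun l => l[j]?) hl
    simp [hw, hj] at h5
    exact h5.symm
  have hlet := (h3 n S U t m hAbs hm hNB).2 y z hy hz hU hl'
  obtain ⟨-, hg, hAz⟩ := hrun z hz hlet p
  have hzp : z p = z 0 := by
    refine Prod.ext ?_ ?_
    · rw [← hlet p, ← hlet 0]
      have := hper 0
      simpa using this
    · rw [← hg, hzx]
      exact hgx
  have hzper : ∀ k, z (k + p) = z k := by
    intro k
    induction k with
    | zero => simpa using hzp
    | succ k ih =>
      have h5 := hz (k + p)
      rw [ih] at h5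
      have h6 := S.tr_unique h5 (hz k)
      rw [show k + 1 + p = k + p + 1 by ring]
      exact h6
  refine ⟨z, hz, fun k => (hlet k).symm, hzper, ?_⟩
  rw [← hAz]
  exact hAu

end Pool.Agent.H66.DU
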